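import Mathlib
import Pool.Agent.N144.IR.Open

/-!
# The integral representations on `H^2` at 100 percent of the primes, from one prime

Let `k` be finitely generated over `ℚ`, `X` a smooth projective variety over `k` and
`H = N ⊕ T` (up to a finite index) the lattice `H^2(X, ℤ(1))` modulo torsion, `N` the algebraic classes
and `T` the transcendental part, the orthogonal complement of `N` for the intersection form given by an
ample class. The form on `T` is unimodular at almost all prime numbers `ℓ`, the Galois group
`G = Gal(k̄/k)` acts on the lattices `T_ℓ = T ⊗ ℤ_ℓ` by isometries and on `N` through a finite group. Let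
`K` be a number field and `s : G_K → G` the homomorphism given by a closed point of the generic fibre of a
model of `X` (if `k` is a number field, then `K = k` and `s` is the identity). At the places `v` of `K` of
good reduction (`v ∉ S`) the characteristic polynomial `P_v` of the geometric Frobenius on `T_ℓ` has
rational coefficients and does not depend on `ℓ` (Deligne). Suppose that the rank `N` of `T` is odd
and at least `5`. If the Mumford-Tate group is as large as possible, then it is the group `SO(T)`.

**Theorem.** Suppose that at ONE prime number `ℓ₀`, which does not divide `N - 1`, the image of `G_K`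
contains all isometries of `T_ℓ₀` which are congruent to `1` modulo some power of `ℓ₀`. Let `d` be a
number. Then for all prime numbers `ℓ` outside of a set of natural density zero
* the image of `G_K` contains all isometries of `T_ℓ` which are congruent to `1` modulo some power of
  `ℓ`, so the image of `G` is an open subgroup, of finite index, of `SO(T)(ℤ_ℓ)` (up to `± 1`);
* for every subgroup `U` of `G` of index at most `d`, for example for the Galois group of `k^conn`, the
  matrices of the elements of `U` span the lattice of all matrices over `ℤ_ℓ`. So `T / ℓ` is an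
  absolutely irreducible representation of `U`, and the endomorphisms of the representation `T / ℓ^n` of
  `U` are scalars for all `n`.

The integral Mumford-Tate conjecture says that the index of the image in `SO(T)(ℤ_ℓ)` is bounded. The
second statement is the first necessary condition for it, and it is about the lattices: it does not
follow from the first statement, as the `n` there depends on `ℓ`. Only Frobenius polynomials
and one prime number are used, nothing is assumed about the Hodge numbers (`h^{2,0} > 1` is allowed;
then the motive is not known to be of abelian type).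

The first statement is the known theorem on one prime number (starting theorem `R932.OP.orth_one`;
hand-in `MP_3703a7_ag.FromOnePrime`). Larsen (Maximality of Galois actions for compatible systems) has
proved that the image in a simply connected group is hyperspecial for a set of primes of density one;
together with the first statement this would give the second one for the open subgroups. Here
there is a short direct proof, for all subgroups of bounded index.

The main part of the proof, no proper subspace of `T / ℓ` is stable under a subgroup of index at most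
`d`, is the theorem `R932.OP.irr_mod_one` of the starting files, which is not used in any result:
by the openness at one prime the groups of the polynomials `P_v / (X - 1)` contain enough cycles, so by
Chebotarev stable subspaces of dimension `2, ..., N - 2` exist at few primes only, isotropic lines are
excluded in the same way and anisotropic ones by the zero-one law for Tate classes modulo `ℓ`. New
here: the commutant of `U` modulo `ℓ` consists of scalars, since the eigenvalue `1` of a Frobenius
element is simple modulo `ℓ` and the eigenvector is fixed by the powers of the Frobenius element in `U`;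
the density theorem of Jacobson, the lemma of Nakayama, and the comparison of the lattice and
the rational forms of the open image condition.
-/

set_option autoImplicit false

namespace Pool.Agent.Results.MP_2b5912_ag.SpanningImages

open Matrix Polynomial Filter Topology NumberField IsDedekindDomain

/-- the absolute Galois group of `K`, with its profinite (Krull) topology -/
abbrev AbsoluteGaloisGroup (K : Type) [Field K] : Type := Gal(AlgebraicClosure K/K)

/-- `σ` is an (arithmetic) Frobenius element at the prime `v` of the number field `K`: for some prime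
`Q` of the algebraic closure above `v` it acts on the residue field as `x ↦ x ^ N(v)` -/
def IsFrobenius {K : Type} [Field K] [NumberField K] (v : HeightOneSpectrum (𝓞 K))
    (σ : AbsoluteGaloisGroup K) : Prop :=
  ∃ Q : Ideal (𝓞 (AlgebraicClosure K)), Q.IsMaximal ∧
    Q.comap (algebraMap (𝓞 K) (𝓞 (AlgebraicClosure K))) = v.asIdeal ∧
    ∀ x : 𝓞 (AlgebraicClosure K), σ • x - x ^ Ideal.absNorm v.asIdeal ∈ Q

/-- `β` is a representation of the group `G` on the lattice `ℤ_ℓ ^ N` which preserves the
nondegenerate symmetric form with the matrix `B`, it is continuous on `G_K` (along `s`), and for all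
`v ∉ S` which are prime to `ℓ` the characteristic polynomial of (the image under `s` of) the geometric
Frobenius elements `σ⁻¹` (`σ` arithmetic) at `v` is `P v` -/
def IsLatticeSystem (K : Type) [Field K] [NumberField K] {G : Type} [Group G]
    (s : AbsoluteGaloisGroup K →* G) (N : ℕ)
    (S : Set (HeightOneSpectrum (𝓞 K))) (P : HeightOneSpectrum (𝓞 K) → ℚ[X]) (ℓ : ℕ)
    [Fact ℓ.Prime] (β : G →* Matrix (Fin N) (Fin N) ℤ_[ℓ]) (B : Matrix (Fin N) (Fin N) ℤ_[ℓ]) :
    Prop :=
  Continuous (fun σ : AbsoluteGaloisGroup K => β (s σ)) ∧ Bᵀ = B ∧ B.det ≠ 0 ∧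
    (∀ g, (β g)ᵀ * B * β g = B) ∧
    ∀ v ∉ S, (ℓ : 𝓞 K) ∉ v.asIdeal → ∀ σ : AbsoluteGaloisGroup K, IsFrobenius v σ →
      (β (s σ⁻¹)).charpoly.map (algebraMap ℤ_[ℓ] ℚ_[ℓ]) = (P v).map (algebraMap ℚ ℚ_[ℓ])

/-- **the image is open in the orthogonal group of the lattice**: for some `n` it contains all
isometries of the lattice `(ℤ_ℓ ^ N, B)` which are congruent to `1` modulo `ℓ ^ n` -/
def HasOpenImage {K : Type} [Field K] {G : Type} [Group G]
    (s : AbsoluteGaloisGroup K →* G) {N : ℕ} (ℓ : ℕ) [Fact ℓ.Prime]
    (β : G →* Matrix (Fin N) (Fin N) ℤ_[ℓ]) (B : Matrix (Fin N) (Fin N) ℤ_[ℓ]) : Prop :=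
  ∃ n : ℕ, ∀ g : Matrix (Fin N) (Fin N) ℤ_[ℓ], gᵀ * B * g = B →
    (∀ i j, (ℓ : ℤ_[ℓ]) ^ n ∣ (g - 1) i j) → ∃ σ : AbsoluteGaloisGroup K, β (s σ) = g

/-- **the image spans the lattice of all matrices**: for all subgroups `U` of `G` of (finite) index
at most `d` the matrices `β u`, `u ∈ U`, generate the `ℤ_ℓ`-module of all matrices over `ℤ_ℓ` -/
def SpansMatrices {G : Type} [Group G] {N : ℕ} (ℓ d : ℕ) [Fact ℓ.Prime]
    (β : G →* Matrix (Fin N) (Fin N) ℤ_[ℓ]) : Prop :=
  ∀ U : Subgroup G, U.index ≠ 0 → U.index ≤ d → Submodule.span ℤ_[ℓ] (β '' (U : Set G)) = ⊤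

/-- the set `A` of prime numbers has natural density zero -/
def HasDensityZero (A : Set ℕ) : Prop :=
  Tendsto (fun n : ℕ => (Nat.card {ℓ : ℕ // ℓ ≤ n ∧ ℓ ∈ A} : ℝ) / (Nat.primeCounting n : ℝ))
    atTop (𝓝 0)

/-- **If the image is open at one prime number `ℓ₀`, then at 100 percent of the prime numbers `ℓ` it is
open, and the subgroups of index at most `d` span all matrices over `ℤ_ℓ`.** -/
theorem result (K : Type) [Field K] [NumberField K] (G : Type) [Group G]
    (s : AbsoluteGaloisGroup K →* G) (N : ℕ) (hN : Odd N) (hN5 : 5 ≤ N)
    (S : Set (HeightOneSpectrum (𝓞 K))) (hS : S.Finite) (P : HeightOneSpectrum (𝓞 K) → ℚ[X])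
    (β : ∀ (ℓ : ℕ) [Fact ℓ.Prime], G →* Matrix (Fin N) (Fin N) ℤ_[ℓ])
    (B : ∀ (ℓ : ℕ) [Fact ℓ.Prime], Matrix (Fin N) (Fin N) ℤ_[ℓ])
    (hβ : ∀ (ℓ : ℕ) [Fact ℓ.Prime], IsLatticeSystem K s N S P ℓ (β ℓ) (B ℓ))
    (hB : ∃ b : ℕ, ∀ (ℓ : ℕ) [Fact ℓ.Prime], b < ℓ → IsUnit (B ℓ).det)
    (ℓ₀ : ℕ) [Fact ℓ₀.Prime] (hℓ₀ : ¬ ℓ₀ ∣ N - 1) (hopen : HasOpenImage s ℓ₀ (β ℓ₀) (B ℓ₀))
    (d : ℕ) :
    HasDensityZero {ℓ | ∃ _ : Fact ℓ.Prime,
      ¬ (HasOpenImage s ℓ (β ℓ) (B ℓ) ∧ SpansMatrices ℓ d (β ℓ))} :=
  Pool.Agent.N144.IR.open_one hN hN5 hS β B hβ hB ℓ₀ hℓ₀ hopen d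

end Pool.Agent.Results.MP_2b5912_ag.SpanningImages
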